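import Pool.Agent.Helper46.ME.Chiro
import Pool.Agent.Helper46.ME.St.D1
import Pool.Agent.Helper46.ME.Dat.L0
import Pool.Agent.Helper46.ME.Dat.H1
import Pool.Agent.Helper46.ME.Dat.H2
import Pool.Agent.Helper46.ME.Dat.H3

/-! The map `FB` is a uniform chirotope. -/

namespace Pool.Agent.Helper46.ME

/-- the integer of a bit -/
def zb (b : Bool) : ℤ := cond b (-1) 1

theorem sign_zb (b : Bool) : SignType.sign (zb b) = sb b := by
  cases b <;> decide

theorem sign_cast_sb (b : Bool) : ((sb b : SignType) : ℤ) = zb b := by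
  cases b <;> decide

theorem zb_mul_self (b : Bool) : zb b * zb b = 1 := by
  cases b <;> decide

/-- monotone heights realize a line in the plane -/
theorem gp_line_mono {tab k : ℕ} {f : Fin 15} (h : chk tab k f = true) (hf : f ≠ 0)
    {u v : Fin 15} (hu : u ≠ 0) (hv : v ≠ 0) (huf : u ≠ f) (hvf : v ≠ f) (huv : u ≠ v)
    (a b c d : Fin 15) :
    Bal (FB u v a b * FB u v c d) (-(FB u v a c * FB u v b d))
      (FB u v a d * FB u v b c) := by
  have eta := FB_of_ne huv hu huf hv hvf hf.symm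
  apply gp_of_planar (fun x => if x = 0 then 0 else ((FB u v x 0 : SignType) : ℤ))
    (fun x => if x = 0 then 1 else ((FB u v x 0 : SignType) : ℤ) *
      (((FB u v 0 f : SignType) : ℤ) * hgt tab k f u v x))
  intro x y
  have hs : ∀ x : Fin 15, SignType.sign ((FB u v x 0 : SignType) : ℤ) = FB u v x 0 := by
    intro x; generalize FB u v x 0 = t; revert t; decide
  have hs2 : SignType.sign ((FB u v 0 f : SignType) : ℤ) = FB u v 0 f := by
    generalize FB u v 0 f = t; revert t; decide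
  by_cases hx : x = 0 <;> by_cases hy : y = 0
  · subst hx; subst hy
    rw [FB_zero (by tauto)]; simp
  · subst hx
    simp only [if_true, hy, if_false, zero_mul, one_mul, zero_sub]
    rw [Left.sign_neg, hs, FB_alt.s23 u v y 0]
  · subst hy
    simp only [if_true, hx, if_false, mul_one, mul_zero, sub_zero]
    rw [hs]
  · simp only [hx, hy, if_false]
    have hm := mono_all h hf u v x y hu hv huf hvf hx hy
    unfold Mono at hm
    have e : ((FB u v x 0 : SignType) : ℤ) * (((FB u v y 0 : SignType) : ℤ) *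
        (((FB u v 0 f : SignType) : ℤ) * hgt tab k f u v y)) -
        ((FB u v x 0 : SignType) : ℤ) * (((FB u v 0 f : SignType) : ℤ) * hgt tab k f u v x) *
          ((FB u v y 0 : SignType) : ℤ) =
        ((FB u v x 0 : SignType) : ℤ) * ((FB u v y 0 : SignType) : ℤ) *
          ((FB u v 0 f : SignType) : ℤ) * (hgt tab k f u v y - hgt tab k f u v x) := by ring
    rw [hm, e, sign_mul, sign_mul, sign_mul, hs, hs, hs2]

theorem line0 {v x y : Fin 15} (hv : v ≠ 0) (hx : x ≠ 0) (hy : y ≠ 0) (hxv : x ≠ v) (hyv : y ≠ v)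
    (hxy : x ≠ y) : pos v x ≠ pos v y ∧
    nb 0 v x y = xor (xor (ebit v x) (ebit v y)) (Nat.blt (pos v y) (pos v x)) := by
  have n1 : 1 ≤ (v : ℕ) := Nat.one_le_iff_ne_zero.2 (fun h => hv (Fin.ext h))
  have n2 : 1 ≤ (x : ℕ) := Nat.one_le_iff_ne_zero.2 (fun h => hx (Fin.ext h))
  have n3 : 1 ≤ (y : ℕ) := Nat.one_le_iff_ne_zero.2 (fun h => hy (Fin.ext h))
  have g1 := allr_spec chk0_true v n1 (by omega)
  have g2 := allr_spec g1 x n2 (by omega)
  rw [beq_false (Fin.val_ne_of_ne hxv), Bool.false_or] at g2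
  have g3 := allr_spec g2 y n3 (by omega)
  rw [beq_false (Fin.val_ne_of_ne hyv), beq_false (Fin.val_ne_of_ne hxy.symm), Bool.false_or,
    Bool.false_or, Bool.and_eq_true] at g3
  refine ⟨?_, ?_⟩
  · intro h5
    have h6 := g3.1
    rw [h5] at h6
    simp [Nat.beq_refl] at h6
  · have h6 := g3.2
    revert h6
    generalize nb 0 v x y = p
    generalize (xor (xor (ebit v x) (ebit v y)) (Nat.blt (pos v y) (pos v x))) = q
    revert p q
    decide

theorem gp_line_zero {v : Fin 15} (hv : v ≠ 0) (a b c d : Fin 15) :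
    Bal (FB 0 v a b * FB 0 v c d) (-(FB 0 v a c * FB 0 v b d))
      (FB 0 v a d * FB 0 v b c) := by
  apply gp_of_planar (fun x : Fin 15 => if x = 0 ∨ x = v then 0 else zb (ebit v x))
    (fun x : Fin 15 => if x = 0 ∨ x = v then 0 else zb (ebit v x) * (pos v x : ℤ))
  intro x y
  by_cases hx : x = 0 ∨ x = v
  · rw [if_pos hx, if_pos hx, FB_zero (by tauto)]; simp
  by_cases hy : y = 0 ∨ y = v
  · rw [if_pos hy, if_pos hy, FB_zero (by tauto)]; simp
  rw [if_neg hx, if_neg hx, if_neg hy, if_neg hy]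
  push Not at hx hy
  by_cases hxy : x = y
  · subst hxy
    rw [FB_zero (by tauto)]
    have : zb (ebit v x) * (zb (ebit v x) * (pos v x : ℤ)) -
      zb (ebit v x) * (pos v x : ℤ) * zb (ebit v x) = 0 := by ring
    rw [this]; simp
  obtain ⟨h1, h2⟩ := line0 hv hx.1 hy.1 hx.2 hy.2 hxy
  have e : zb (ebit v x) * (zb (ebit v y) * (pos v y : ℤ)) -
      zb (ebit v x) * (pos v x : ℤ) * zb (ebit v y) =
      zb (ebit v x) * zb (ebit v y) * (((pos v y : ℤ) - 0) - ((pos v x : ℤ) - 0)) := by ring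
  rw [e, sign_mul, sign_mul, sign_sub _ _ _ h1, sign_zb, sign_zb,
    FB_of_ne hv.symm hx.1.symm hy.1.symm hx.2.symm hy.2.symm hxy]
  simp only [Fin.val_zero]
  rw [h2, sb_xor, sb_xor]

theorem bal_neg {a b c : SignType} (h : Bal (-a) (-b) (-c)) : Bal a b c := by
  revert a b c
  unfold Bal
  decide

theorem FB_gp : GP4 FB := by
  intro u v a b c d
  by_cases huv : u = v
  · subst huv
    left
    simp [FB_zero]
  by_cases hu : u = 0
  · subst hu
    exact gp_line_zero (fun h => huv h.symm) a b c d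
  by_cases hv : v = 0
  · subst hv
    have h := gp_line_zero hu a b c d
    have e : ∀ x y, FB u 0 x y = - FB 0 u x y := fun x y => FB_alt.s01 0 u x y
    rw [e, e, e, e, e, e]
    simpa using h
  by_cases h1 : u ≠ 1 ∧ v ≠ 1
  · exact gp_line_mono (f := 1) chk1 (by decide) hu hv h1.1 h1.2 huv a b c d
  by_cases h2 : u ≠ 2 ∧ v ≠ 2
  · exact gp_line_mono (f := 2) chk2 (by decide) hu hv h2.1 h2.2 huv a b c d
  have h3 : u ≠ 3 ∧ v ≠ 3 := by
    revert u v
    decide
  exact gp_line_mono (f := 3) chk3 (by decide) hu hv h3.1 h3.2 huv a b c d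

theorem FB_uc : UC FB := ⟨FB_alt, FB_gp, FB_uni⟩

end Pool.Agent.Helper46.ME
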