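import Pool.Agent.Helper46.ME.Data

/-! The chirotope of the extended oriented matroid: antisymmetry, uniformity, heights from checked tables. -/

namespace Pool.Agent.Helper46.ME

theorem allr_spec {lo n : ℕ} {p : ℕ → Bool} (h : allr lo n p = true) :
    ∀ i, lo ≤ i → i < lo + n → p i = true := by
  induction n generalizing lo with
  | zero => intro i h1 h2; omega
  | succ n ih =>
    intro i h1 h2
    simp only [allr, Bool.and_eq_true] at h
    rcases Nat.eq_or_lt_of_le h1 with h3 | h3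
    · rw [← h3]; exact h.1
    · exact ih h.2 i h3 (by omega)

/-- the sign of a bit -/
def sb (b : Bool) : SignType := cond b (-1) 1

theorem sb_xor (a b : Bool) : sb (xor a b) = sb a * sb b := by
  cases a <;> cases b <;> decide

theorem sb_not (a : Bool) : sb (!a) = - sb a := by
  cases a <;> decide

theorem sb_ne (a : Bool) : sb a ≠ 0 := by
  cases a <;> decide

theorem sb_mul_self (a : Bool) : sb a * sb a = 1 := by
  cases a <;> decide

theorem blt_iff {a b : ℕ} : Nat.blt a b = true ↔ a < b := by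
  rw [Nat.blt_eq]

theorem blt_not {a b : ℕ} (h : a ≠ b) : Nat.blt a b = !(Nat.blt b a) := by
  rcases Nat.lt_or_gt_of_ne h with h1 | h1
  · have h2 : Nat.blt a b = true := blt_iff.2 h1
    have h3 : Nat.blt b a = false := by
      rw [← Bool.not_eq_true, blt_iff]; omega
    rw [h2, h3]; rfl
  · have h2 : Nat.blt b a = true := blt_iff.2 h1
    have h3 : Nat.blt a b = false := by
      rw [← Bool.not_eq_true, blt_iff]; omega
    rw [h2, h3]; rfl

theorem m4_01 (a b c d : ℕ) : m4 b a c d = m4 a b c d := by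
  change (2 ^ b ||| 2 ^ a) ||| (2 ^ c ||| 2 ^ d) = (2 ^ a ||| 2 ^ b) ||| (2 ^ c ||| 2 ^ d)
  rw [Nat.or_comm (2 ^ b)]

theorem m4_12 (a b c d : ℕ) : m4 a c b d = m4 a b c d := by
  change (2 ^ a ||| 2 ^ c) ||| (2 ^ b ||| 2 ^ d) = (2 ^ a ||| 2 ^ b) ||| (2 ^ c ||| 2 ^ d)
  rw [Nat.or_assoc, Nat.or_assoc, ← Nat.or_assoc (2 ^ c), Nat.or_comm (2 ^ c), Nat.or_assoc]

theorem m4_23 (a b c d : ℕ) : m4 a b d c = m4 a b c d := by
  change (2 ^ a ||| 2 ^ b) ||| (2 ^ d ||| 2 ^ c) = (2 ^ a ||| 2 ^ b) ||| (2 ^ c ||| 2 ^ d)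
  rw [Nat.or_comm (2 ^ d)]

theorem m3_01 (a b c : ℕ) : m3 b a c = m3 a b c := by
  change (2 ^ b ||| 2 ^ a) ||| 2 ^ c = (2 ^ a ||| 2 ^ b) ||| 2 ^ c
  rw [Nat.or_comm (2 ^ b)]

theorem m3_12 (a b c : ℕ) : m3 a c b = m3 a b c := by
  change (2 ^ a ||| 2 ^ c) ||| 2 ^ b = (2 ^ a ||| 2 ^ b) ||| 2 ^ c
  rw [Nat.or_assoc, Nat.or_assoc, Nat.or_comm (2 ^ c)]

theorem nb_01 {a b : ℕ} (c d : ℕ) (h : a ≠ b) : nb b a c d = !(nb a b c d) := by
  unfold nb
  rw [m4_01, blt_not h]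
  generalize Nat.blt b a = p1
  generalize Nat.blt c a = p2
  generalize Nat.blt d a = p3
  generalize Nat.blt c b = p4
  generalize Nat.blt d b = p5
  generalize Nat.blt d c = p6
  generalize tb T (m4 a b c d) = p7
  revert p1 p2 p3 p4 p5 p6 p7
  decide

theorem nb_12 {b c : ℕ} (a d : ℕ) (h : b ≠ c) : nb a c b d = !(nb a b c d) := by
  unfold nb
  rw [m4_12, blt_not h]
  generalize Nat.blt b a = p1
  generalize Nat.blt c a = p2
  generalize Nat.blt d a = p3
  generalize Nat.blt c b = p4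
  generalize Nat.blt d b = p5
  generalize Nat.blt d c = p6
  generalize tb T (m4 a b c d) = p7
  revert p1 p2 p3 p4 p5 p6 p7
  decide

theorem nb_23 {c d : ℕ} (a b : ℕ) (h : c ≠ d) : nb a b d c = !(nb a b c d) := by
  unfold nb
  rw [m4_23, blt_not h]
  generalize Nat.blt b a = p1
  generalize Nat.blt c a = p2
  generalize Nat.blt d a = p3
  generalize Nat.blt c b = p4
  generalize Nat.blt d b = p5
  generalize Nat.blt d c = p6
  generalize tb T (m4 a b c d) = p7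
  revert p1 p2 p3 p4 p5 p6 p7
  decide

theorem sg_of_ne {a b c d : ℕ} (h1 : a ≠ b) (h2 : a ≠ c) (h3 : a ≠ d) (h4 : b ≠ c) (h5 : b ≠ d)
    (h6 : c ≠ d) : sg a b c d = sb (nb a b c d) := by
  unfold sg sb
  rw [if_neg (by tauto)]
  cases nb a b c d <;> rfl

theorem sg_zero {a b c d : ℕ} (h : a = b ∨ a = c ∨ a = d ∨ b = c ∨ b = d ∨ c = d) :
    sg a b c d = 0 := by
  unfold sg
  rw [if_pos h]

theorem sg_01 (a b c d : ℕ) : sg b a c d = - sg a b c d := by
  by_cases h : a = b ∨ a = c ∨ a = d ∨ b = c ∨ b = d ∨ c = d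
  · rw [sg_zero h, sg_zero (by tauto)]; rfl
  · push Not at h
    obtain ⟨h1, h2, h3, h4, h5, h6⟩ := h
    rw [sg_of_ne h1 h2 h3 h4 h5 h6, sg_of_ne h1.symm h4 h5 h2 h3 h6, nb_01 c d h1, sb_not]

theorem sg_12 (a b c d : ℕ) : sg a c b d = - sg a b c d := by
  by_cases h : a = b ∨ a = c ∨ a = d ∨ b = c ∨ b = d ∨ c = d
  · rw [sg_zero h, sg_zero (by tauto)]; rfl
  · push Not at h
    obtain ⟨h1, h2, h3, h4, h5, h6⟩ := h
    rw [sg_of_ne h1 h2 h3 h4 h5 h6, sg_of_ne h2 h1 h3 h4.symm h6 h5, nb_12 a d h4, sb_not]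

theorem sg_23 (a b c d : ℕ) : sg a b d c = - sg a b c d := by
  by_cases h : a = b ∨ a = c ∨ a = d ∨ b = c ∨ b = d ∨ c = d
  · rw [sg_zero h, sg_zero (by tauto)]; rfl
  · push Not at h
    obtain ⟨h1, h2, h3, h4, h5, h6⟩ := h
    rw [sg_of_ne h1 h2 h3 h4 h5 h6, sg_of_ne h1 h3 h2 h5 h4 h6.symm, nb_23 a b h6, sb_not]

theorem FB_alt : Alt4 FB :=
  ⟨fun _ _ _ _ => sg_01 _ _ _ _, fun _ _ _ _ => sg_12 _ _ _ _, fun _ _ _ _ => sg_23 _ _ _ _⟩

theorem FB_of_ne {a b c d : Fin 15} (h1 : a ≠ b) (h2 : a ≠ c) (h3 : a ≠ d) (h4 : b ≠ c)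
    (h5 : b ≠ d) (h6 : c ≠ d) : FB a b c d = sb (nb a b c d) :=
  sg_of_ne (Fin.val_ne_of_ne h1) (Fin.val_ne_of_ne h2) (Fin.val_ne_of_ne h3)
    (Fin.val_ne_of_ne h4) (Fin.val_ne_of_ne h5) (Fin.val_ne_of_ne h6)

theorem FB_uni (a b c d : Fin 15) (h1 : a ≠ b) (h2 : a ≠ c) (h3 : a ≠ d) (h4 : b ≠ c)
    (h5 : b ≠ d) (h6 : c ≠ d) : FB a b c d ≠ 0 := by
  rw [FB_of_ne h1 h2 h3 h4 h5 h6]
  exact sb_ne _

theorem FB_zero {a b c d : Fin 15} (h : a = b ∨ a = c ∨ a = d ∨ b = c ∨ b = d ∨ c = d) :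
    FB a b c d = 0 := by
  apply sg_zero
  rcases h with h | h | h | h | h | h <;> subst h <;> simp

/-- heights from a table -/
def hgt (tab k f : ℕ) (u v w : Fin 15) : ℤ := (raw tab k f u v w : ℤ) - (k : ℤ)

theorem raw_01 (tab k f u v w : ℕ) : raw tab k f v u w = raw tab k f u v w := by
  unfold raw
  rw [m3_01]
  congr 1
  cases Nat.beq u f <;> cases Nat.beq v f <;> cases Nat.beq w f <;> rfl

theorem raw_12 (tab k f u v w : ℕ) : raw tab k f u w v = raw tab k f u v w := by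
  unfold raw
  rw [m3_12]
  congr 1
  cases Nat.beq u f <;> cases Nat.beq v f <;> cases Nat.beq w f <;> rfl

theorem raw_f (tab k f u v : ℕ) : raw tab k f u v f = k := by
  unfold raw
  have : Nat.beq f f = true := Nat.beq_refl f
  rw [this]
  cases Nat.beq u f <;> cases Nat.beq v f <;> rfl

theorem beq_false {a b : ℕ} (h : a ≠ b) : Nat.beq a b = false := by
  rw [← Bool.not_eq_true]
  intro h1
  exact h (Nat.eq_of_beq_eq_true h1)

theorem sign_sub (a b : ℕ) (k : ℤ) (h : a ≠ b) :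
    SignType.sign (((b : ℤ) - k) - ((a : ℤ) - k)) = sb (Nat.blt b a) := by
  have e : ((b : ℤ) - k) - ((a : ℤ) - k) = (b : ℤ) - a := by ring
  rw [e]
  rcases Nat.lt_or_gt_of_ne h with h1 | h1
  · have h3 : Nat.blt b a = false := by
      rw [← Bool.not_eq_true, blt_iff]; omega
    rw [h3, sign_pos (by omega)]; rfl
  · rw [blt_iff.2 h1, sign_neg (by omega)]; rfl

/-- monotonicity on sorted distinct quadruples -/
theorem mono_lt {tab k f : ℕ} (h : chk tab k f = true) {u v x y : ℕ} (hu : 1 ≤ u) (huv : u < v)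
    (hv : v < 15) (huf : u ≠ f) (hvf : v ≠ f) (hx : 1 ≤ x) (hxy : x < y) (hy : y < 15)
    (hxu : x ≠ u) (hxv : x ≠ v) (hyu : y ≠ u) (hyv : y ≠ v) :
    raw tab k f u v x ≠ raw tab k f u v y ∧
    nb u v x y = xor (xor (nb u v x 0) (nb u v y 0))
          (xor (nb u v 0 f) (Nat.blt (raw tab k f u v y) (raw tab k f u v x))) := by
  have h1 := allr_spec h u hu (by omega)
  rw [beq_false huf, Bool.false_or] at h1
  have h2 := allr_spec h1 v (by omega) (by omega)
  rw [beq_false hvf, Bool.false_or] at h2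
  have h3 := allr_spec h2 x hx (by omega)
  rw [beq_false hxu, beq_false hxv, Bool.false_or, Bool.false_or] at h3
  have h4 := allr_spec h3 y (by omega) (by omega)
  rw [beq_false hyu, beq_false hyv, Bool.false_or, Bool.false_or, Bool.and_eq_true] at h4
  refine ⟨?_, ?_⟩
  · intro h5
    have h6 := h4.1
    rw [h5] at h6
    simp [Nat.beq_refl] at h6
  · have h6 := h4.2
    revert h6
    generalize nb u v x y = p
    generalize (xor (xor (nb u v x 0) (nb u v y 0))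
          (xor (nb u v 0 f) (Nat.blt (raw tab k f u v y) (raw tab k f u v x)))) = q
    revert p q
    decide

/-- the monotonicity statement -/
def Mono (tab k : ℕ) (f : Fin 15) (u v x y : Fin 15) : Prop :=
  FB u v x y = FB u v x 0 * FB u v y 0 * FB u v 0 f *
    SignType.sign (hgt tab k f u v y - hgt tab k f u v x)

theorem mono_sorted {tab k : ℕ} {f : Fin 15} (h : chk tab k f = true) (hf : f ≠ 0)
    {u v x y : Fin 15} (hu : u ≠ 0) (huv : u < v) (huf : u ≠ f) (hvf : v ≠ f)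
    (hx : x ≠ 0) (hxy : x < y) (hxu : x ≠ u) (hxv : x ≠ v) (hyu : y ≠ u) (hyv : y ≠ v) :
    Mono tab k f u v x y := by
  have hv : v ≠ 0 := by rintro rfl; exact absurd huv (by simp)
  have hy : y ≠ 0 := by rintro rfl; exact absurd hxy (by simp)
  have hu' : 1 ≤ (u : ℕ) := Nat.one_le_iff_ne_zero.2 (fun h => hu (Fin.ext h))
  have hx' : 1 ≤ (x : ℕ) := Nat.one_le_iff_ne_zero.2 (fun h => hx (Fin.ext h))
  obtain ⟨h1, h2⟩ := mono_lt h hu' huv v.2 (Fin.val_ne_of_ne huf) (Fin.val_ne_of_ne hvf) hx' hxy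
    y.2 (Fin.val_ne_of_ne hxu) (Fin.val_ne_of_ne hxv) (Fin.val_ne_of_ne hyu)
    (Fin.val_ne_of_ne hyv)
  unfold Mono hgt
  rw [sign_sub _ _ _ h1, FB_of_ne huv.ne hxu.symm hyu.symm hxv.symm hyv.symm hxy.ne, h2,
    FB_of_ne huv.ne hxu.symm hu hxv.symm hv hx, FB_of_ne huv.ne hyu.symm hu hyv.symm hv hy,
    FB_of_ne huv.ne hu huf hv hvf hf.symm]
  simp only [sb_xor, Fin.val_zero]
  simp only [mul_assoc]

theorem mono_swap_uv {tab k : ℕ} {f u v x y : Fin 15} (h : Mono tab k f u v x y) :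
    Mono tab k f v u x y := by
  unfold Mono hgt at *
  rw [FB_alt.s01 u v x y, FB_alt.s01 u v x 0, FB_alt.s01 u v y 0, FB_alt.s01 u v 0 f, h,
    raw_01 tab k f u v y, raw_01 tab k f u v x]
  simp

theorem mono_swap_xy {tab k : ℕ} {f u v x y : Fin 15} (h : Mono tab k f u v x y) :
    Mono tab k f u v y x := by
  unfold Mono at *
  have e : hgt tab k f u v x - hgt tab k f u v y = -(hgt tab k f u v y - hgt tab k f u v x) := by
    ring
  rw [FB_alt.s23 u v x y, h, e, Left.sign_neg, mul_neg, mul_comm (FB u v y 0)]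

theorem mono_all {tab k : ℕ} {f : Fin 15} (h : chk tab k f = true) (hf : f ≠ 0)
    (u v x y : Fin 15) (hu : u ≠ 0) (hv : v ≠ 0) (huf : u ≠ f) (hvf : v ≠ f)
    (hx : x ≠ 0) (hy : y ≠ 0) : Mono tab k f u v x y := by
  by_cases huv : u = v
  · subst huv
    unfold Mono
    rw [FB_zero (Or.inl rfl), FB_zero (Or.inl rfl)]; simp
  by_cases hxy : x = y
  · subst hxy
    unfold Mono
    rw [FB_zero (by tauto)]; simp
  by_cases hxu : x = u
  · subst hxu
    unfold Mono
    rw [FB_zero (by tauto), FB_zero (a := x) (b := v) (c := x) (d := 0) (by tauto)]; simp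
  by_cases hxv : x = v
  · subst hxv
    unfold Mono
    rw [FB_zero (by tauto), FB_zero (a := u) (b := x) (c := x) (d := 0) (by tauto)]; simp
  by_cases hyu : y = u
  · subst hyu
    unfold Mono
    rw [FB_zero (by tauto), FB_zero (a := y) (b := v) (c := y) (d := 0) (by tauto)]; simp
  by_cases hyv : y = v
  · subst hyv
    unfold Mono
    rw [FB_zero (by tauto), FB_zero (a := u) (b := y) (c := y) (d := 0) (by tauto)]; simp
  rcases lt_or_gt_of_ne huv with h1 | h1 <;> rcases lt_or_gt_of_ne hxy with h2 | h2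
  · exact mono_sorted h hf hu h1 huf hvf hx h2 hxu hxv hyu hyv
  · exact mono_swap_xy (mono_sorted h hf hu h1 huf hvf hy h2 hyu hyv hxu hxv)
  · exact mono_swap_uv (mono_sorted h hf hv h1 hvf huf hx h2 hxv hxu hyv hyu)
  · exact mono_swap_uv (mono_swap_xy (mono_sorted h hf hv h1 hvf huf hy h2 hyv hyu hxv hxu))

theorem testBit_m3 (a b c i : ℕ) : (m3 a b c).testBit i = true ↔ (i = a ∨ i = b ∨ i = c) := by
  change (((2 ^ a ||| 2 ^ b) ||| 2 ^ c).testBit i = true) ↔ _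
  rw [Nat.testBit_or, Nat.testBit_or, Nat.testBit_two_pow, Nat.testBit_two_pow,
    Nat.testBit_two_pow]
  simp only [Bool.or_eq_true, decide_eq_true_eq]
  constructor
  · rintro ((h | h) | h)
    · exact Or.inl h.symm
    · exact Or.inr (Or.inl h.symm)
    · exact Or.inr (Or.inr h.symm)
  · rintro (h | h | h)
    · exact Or.inl (Or.inl h.symm)
    · exact Or.inl (Or.inr h.symm)
    · exact Or.inr h.symm

/-- the height function of a checked table -/
theorem ht_of_chk {tab k inv : ℕ} {f : Fin 15} (h : chk tab k f = true)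
    (hi : chkI tab k f inv = true) (hf : f ≠ 0) : Ht FB 0 f (hgt tab k f) := by
  have hv : ∀ u v w : Fin 15, u ≠ 0 → v ≠ 0 → w ≠ 0 → u ≠ f → v ≠ f → w ≠ f → u ≠ v → u ≠ w →
      v ≠ w → Nat.mod (Nat.shiftRight inv (Nat.mul 15 (raw tab k f u v w))) 32768 = m3 u v w := by
    intro u v w h1 h2 h3 h4 h5 h6 h7 h8 h9
    have n1 : 1 ≤ (u : ℕ) := Nat.one_le_iff_ne_zero.2 (fun h => h1 (Fin.ext h))
    have n2 : 1 ≤ (v : ℕ) := Nat.one_le_iff_ne_zero.2 (fun h => h2 (Fin.ext h))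
    have n3 : 1 ≤ (w : ℕ) := Nat.one_le_iff_ne_zero.2 (fun h => h3 (Fin.ext h))
    have g1 := allr_spec hi u n1 (by omega)
    rw [beq_false (Fin.val_ne_of_ne h4), Bool.false_or] at g1
    have g2 := allr_spec g1 v n2 (by omega)
    rw [beq_false (Fin.val_ne_of_ne h5), beq_false (Fin.val_ne_of_ne h7.symm), Bool.false_or,
      Bool.false_or] at g2
    have g3 := allr_spec g2 w n3 (by omega)
    rw [beq_false (Fin.val_ne_of_ne h6), beq_false (Fin.val_ne_of_ne h8.symm),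
      beq_false (Fin.val_ne_of_ne h9.symm), Bool.false_or, Bool.false_or, Bool.false_or] at g3
    exact Nat.eq_of_beq_eq_true g3
  refine ⟨?_, ?_, ?_, ?_, ?_⟩
  · intro a b c; unfold hgt; rw [raw_01]
  · intro a b c; unfold hgt; rw [raw_12]
  · intro a b; unfold hgt; rw [raw_f]; simp
  · intro u v x y h1 h2 h3 h4 h5 h6
    exact mono_all h hf u v x y h1 h2 h3 h4 h5 h6
  · intro a b c u v w h1 h2 h3 h4 h5 h6 h7 h8 h9 h10 h11 h12 h13 h14 h15 h16 h17 h18 he
    have e : raw tab k f a b c = raw tab k f u v w := by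
      unfold hgt at he
      omega
    have e1 := hv a b c h1 h2 h3 h7 h8 h9 h13 h14 h15
    have e2 := hv u v w h4 h5 h6 h10 h11 h12 h16 h17 h18
    rw [e, e2] at e1
    have e3 : (m3 a b c).testBit w = true := by
      rw [← e1, testBit_m3]; tauto
    rw [testBit_m3] at e3
    rcases e3 with h | h | h
    · exact Or.inl (Fin.ext h)
    · exact Or.inr (Or.inl (Fin.ext h))
    · exact Or.inr (Or.inr (Fin.ext h))

end Pool.Agent.Helper46.ME
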