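import Pool.Agent.Helper46.ME.Defs

/-! Curried chirotopes of rank four, extensions, heights, directed edges (definitions). -/

namespace Pool.Agent.Helper46.ME

variable {E : Type}

/-- antisymmetry of a curried map under the three adjacent exchanges -/
structure Alt4 (F : E → E → E → E → SignType) : Prop where
  s01 : ∀ a b c d, F b a c d = - F a b c d
  s12 : ∀ a b c d, F a c b d = - F a b c d
  s23 : ∀ a b c d, F a b d c = - F a b c d

/-- three-term relations of a curried map with the free pair in the last two places -/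
def GP4 (F : E → E → E → E → SignType) : Prop :=
  ∀ u v a b c d, Bal (F u v a b * F u v c d) (-(F u v a c * F u v b d)) (F u v a d * F u v b c)

/-- tuple form of basis exchange at the last place -/
def Ex4 (F : E → E → E → E → SignType) : Prop :=
  ∀ a b c d, F a b c d ≠ 0 → ∀ y : Fin 4 → E, F (y 0) (y 1) (y 2) (y 3) ≠ 0 →
    ∃ j, F a b c (y j) ≠ 0

/-- uniform chirotopes of rank four -/
structure UC (F : E → E → E → E → SignType) : Prop where
  alt : Alt4 F
  gp : GP4 F
  uni : ∀ a b c d, a ≠ b → a ≠ c → a ≠ d → b ≠ c → b ≠ d → c ≠ d → F a b c d ≠ 0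

/-- `O` is given by the curried map `F` -/
def Is4 (O : OM 4 E) (F : E → E → E → E → SignType) : Prop :=
  ∀ x, O.chi x = F (x 0) (x 1) (x 2) (x 3)

/-- the curried map on `Option E` with values `F` on `E` and `s a b c` at `(a, b, c, none)` -/
def ext (F : E → E → E → E → SignType) (s : E → E → E → SignType) :
    Option E → Option E → Option E → Option E → SignType
  | some a, some b, some c, some d => F a b c d
  | some a, some b, some c, none => s a b c
  | some a, some b, none, some d => - s a b d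
  | some a, none, some c, some d => s a c d
  | none, some b, some c, some d => - s b c d
  | _, _, _, _ => 0

/-- antisymmetry of a map of three variables -/
structure Alt3 (s : E → E → E → SignType) : Prop where
  s01 : ∀ a b c, s b a c = - s a b c
  s12 : ∀ a b c, s a c b = - s a b c

/-- relations of the new element on lines of the old oriented matroid -/
def Line (F : E → E → E → E → SignType) (s : E → E → E → SignType) : Prop :=
  ∀ u v a b c, Bal (F u v a b * s u v c) (-(F u v a c * s u v b)) (s u v a * F u v b c)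

/-- at most one element is missing in the exchange for the new element -/
def Q3 (s : E → E → E → SignType) : Prop :=
  ∀ a b z y y', s a b z ≠ 0 → y ≠ a → y ≠ b → y' ≠ a → y' ≠ b →
    s a b y = 0 → s a b y' = 0 → y = y'

/-- `h` is a height function for the program `(g, f)` of the uniform chirotope `F`: the height of
a vertex `{u, v, w}` (none of them `g`); vertices on `f` have height zero, on every line not in
`f` and not in `g` the heights are monotone, and vertices off `f` have different heights. -/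
structure Ht (F : E → E → E → E → SignType) (g f : E) (h : E → E → E → ℤ) : Prop where
  sym1 : ∀ a b c, h b a c = h a b c
  sym2 : ∀ a b c, h a c b = h a b c
  hf : ∀ a b, h a b f = 0
  mono : ∀ u v x y, u ≠ g → v ≠ g → u ≠ f → v ≠ f → x ≠ g → y ≠ g →
    F u v x y = F u v x g * F u v y g * F u v g f * SignType.sign (h u v y - h u v x)
  inj : ∀ a b c u v w, a ≠ g → b ≠ g → c ≠ g → u ≠ g → v ≠ g → w ≠ g →
    a ≠ f → b ≠ f → c ≠ f → u ≠ f → v ≠ f → w ≠ f → a ≠ b → a ≠ c → b ≠ c → u ≠ v → u ≠ w →
    v ≠ w → h a b c = h u v w → (w = a ∨ w = b ∨ w = c)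

open Classical in
/-- the signs of the new element through the height `H` -/
noncomputable def sH (F : E → E → E → E → SignType) (g f : E) (h : E → E → E → ℤ) (H : ℤ)
    (x y z : E) : SignType :=
  if x = g ∨ y = g ∨ z = g then F x y z f else F x y z g * SignType.sign (h x y z - H)

/-- the edge from the vertex `{u, v, c}` to the vertex `{u, v, d}` is directed upwards in the
program `(g, f)` -/
def Up (F : E → E → E → E → SignType) (g f u v c d : E) : Prop :=
  F u v d c * F u v f g * F u v d g * F u v c g = 1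

/-- one step of a walk on vertices given as ordered triples: one entry is replaced by `w`,
upwards -/
def Step (F : E → E → E → E → SignType) (g f : E) (t t' : E × E × E) : Prop :=
  (∃ w, t' = (w, t.2.1, t.2.2) ∧ Up F g f t.2.1 t.2.2 t.1 w) ∨
  (∃ w, t' = (t.1, w, t.2.2) ∧ Up F g f t.1 t.2.2 t.2.1 w) ∨
  (∃ w, t' = (t.1, t.2.1, w) ∧ Up F g f t.1 t.2.1 t.2.2 w)

/-- two ordered triples with the same entries -/
def Same (t t' : E × E × E) : Prop :=
  t' = (t.1, t.2.1, t.2.2) ∨ t' = (t.1, t.2.2, t.2.1) ∨ t' = (t.2.1, t.1, t.2.2) ∨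
  t' = (t.2.1, t.2.2, t.1) ∨ t' = (t.2.2, t.1, t.2.1) ∨ t' = (t.2.2, t.2.1, t.1)

/-- pull back of a uniform chirotope along an injection -/
theorem UC.comp {E' : Type} {F : E → E → E → E → SignType} (h : UC F) (φ : E' → E)
    (hφ : Function.Injective φ) : UC (fun a b c d => F (φ a) (φ b) (φ c) (φ d)) :=
  ⟨⟨fun _ _ _ _ => h.alt.s01 _ _ _ _, fun _ _ _ _ => h.alt.s12 _ _ _ _,
    fun _ _ _ _ => h.alt.s23 _ _ _ _⟩, fun _ _ _ _ _ _ => h.gp _ _ _ _ _ _,
    fun _ _ _ _ h1 h2 h3 h4 h5 h6 => h.uni _ _ _ _ (hφ.ne h1) (hφ.ne h2) (hφ.ne h3) (hφ.ne h4)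
      (hφ.ne h5) (hφ.ne h6)⟩

/-- pull back of a height function along an injection -/
theorem Ht.comp {E' : Type} {F : E → E → E → E → SignType} {g f : E} {h : E → E → E → ℤ}
    (hh : Ht F g f h) (φ : E' → E) (hφ : Function.Injective φ) {g' f' : E'} (hg : φ g' = g)
    (hf : φ f' = f) : Ht (fun a b c d => F (φ a) (φ b) (φ c) (φ d)) g' f'
      (fun a b c => h (φ a) (φ b) (φ c)) := by
  subst hg; subst hf
  refine ⟨fun _ _ _ => hh.sym1 _ _ _, fun _ _ _ => hh.sym2 _ _ _, fun _ _ => hh.hf _ _,
    fun _ _ _ _ h1 h2 h3 h4 h5 h6 => hh.mono _ _ _ _ (hφ.ne h1) (hφ.ne h2) (hφ.ne h3)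
      (hφ.ne h4) (hφ.ne h5) (hφ.ne h6), ?_⟩
  intro a b c u v w h1 h2 h3 h4 h5 h6 h7 h8 h9 h10 h11 h12 h13 h14 h15 h16 h17 h18 he
  rcases hh.inj (φ a) (φ b) (φ c) (φ u) (φ v) (φ w) (hφ.ne h1) (hφ.ne h2) (hφ.ne h3) (hφ.ne h4)
    (hφ.ne h5) (hφ.ne h6) (hφ.ne h7) (hφ.ne h8) (hφ.ne h9) (hφ.ne h10) (hφ.ne h11) (hφ.ne h12)
    (hφ.ne h13) (hφ.ne h14) (hφ.ne h15) (hφ.ne h16) (hφ.ne h17) (hφ.ne h18) he with h | h | h
  · exact Or.inl (hφ h)
  · exact Or.inr (Or.inl (hφ h))
  · exact Or.inr (Or.inr (hφ h))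

end Pool.Agent.Helper46.ME
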