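import Mathlib

/-!
Oriented matroids (given by chirotopes), single element extensions, Euclidean programs,
Mandel oriented matroids and totally non-Euclidean oriented matroids.
-/

namespace Pool.Agent.Helper46.ME

/-- Three signs are balanced when both signs occur among them or all three are zero. -/
def Bal (a b c : SignType) : Prop :=
  (a = 0 ∧ b = 0 ∧ c = 0) ∨ ((a = 1 ∨ b = 1 ∨ c = 1) ∧ (a = -1 ∨ b = -1 ∨ c = -1))

/-- An oriented matroid of rank `r` on `E`, given by a chirotope: an alternating sign map on
`r`-tuples whose supports are the bases of a matroid and which satisfies the three-term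
Grassmann–Plücker relations. -/
structure OM (r : ℕ) (E : Type) where
  /-- the chirotope -/
  chi : (Fin r → E) → SignType
  /-- it changes sign when two entries are exchanged -/
  alt : ∀ (x : Fin r → E) (i j : Fin r), i ≠ j → chi (x ∘ Equiv.swap i j) = - chi x
  /-- there is a basis -/
  ne : ∃ x, chi x ≠ 0
  /-- basis exchange -/
  exch : Matroid.ExchangeProperty (fun B : Set E => ∃ x : Fin r → E, Set.range x = B ∧ chi x ≠ 0)
  /-- three-term Grassmann–Plücker relations -/
  gp : ∀ (x : Fin r → E) (i j : Fin r), i ≠ j → ∀ a b c d : E,
    Bal (chi (Function.update (Function.update x i a) j b) *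
          chi (Function.update (Function.update x i c) j d))
      (- (chi (Function.update (Function.update x i a) j c) *
          chi (Function.update (Function.update x i b) j d)))
      (chi (Function.update (Function.update x i a) j d) *
          chi (Function.update (Function.update x i b) j c))

namespace OM

variable {r : ℕ} {E : Type} [Finite E]

/-- The underlying matroid. -/
noncomputable def matroid (O : OM r E) : Matroid E :=
  Matroid.ofIsBaseOfFinite (E := Set.univ) Set.finite_univ
    (fun B : Set E => ∃ x : Fin r → E, Set.range x = B ∧ O.chi x ≠ 0)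
    (by obtain ⟨x, hx⟩ := O.ne; exact ⟨_, x, rfl, hx⟩) O.exch (fun B _ => Set.subset_univ B)

/-- `P`, an oriented matroid on `E` with one more element `none`, is a single-element extension
of `O`. -/
def Extends (P : OM r (Option E)) (O : OM r E) : Prop :=
  ∀ x : Fin r → E, P.chi (fun i => some (x i)) = O.chi x

/-- `(O, g, f)` is an oriented matroid program. -/
def IsProgram (O : OM r E) (g f : E) : Prop :=
  g ≠ f ∧ ¬ O.matroid.IsLoop g ∧ ¬ O.matroid.IsColoop f

/-- `(O, g, f)` is Euclidean: for each flat `A` of rank `r - 1` with `g ∉ A` there is a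
single-element extension `O ∪ p` with `p` not a loop and `p ∈ cl A ∩ cl {f, g}`. -/
def Euclidean (O : OM r E) (g f : E) : Prop :=
  ∀ A : Set E, O.matroid.IsFlat A → O.matroid.eRk A = ((r - 1 : ℕ) : ℕ∞) → g ∉ A →
    ∃ P : OM r (Option E), P.Extends O ∧ ¬ P.matroid.IsLoop none ∧
      none ∈ P.matroid.closure (some '' A) ∧ none ∈ P.matroid.closure {some f, some g}

/-- The new element of the extension `G` is in general position: it is in the closure of no set
of fewer than `r` elements of `E`. -/
def GeneralPosition (G : OM r (Option E)) : Prop :=
  ∀ S : Set E, S.ncard < r → none ∉ G.matroid.closure (some '' S)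

/-- Mandel oriented matroids. -/
def Mandel (O : OM r E) : Prop :=
  ∃ G : OM r (Option E), G.Extends O ∧ G.GeneralPosition ∧ ¬ G.matroid.IsColoop none ∧
    ∀ f : E, ¬ O.matroid.IsLoop f → ¬ O.matroid.IsColoop f →
      G.IsProgram none (some f) ∧ G.Euclidean none (some f)

/-- No program of `O` is Euclidean. -/
def TotallyNonEuclidean (O : OM r E) : Prop :=
  ∀ g f : E, O.IsProgram g f → ¬ O.Euclidean g f

end OM

end Pool.Agent.Helper46.ME
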