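import Pool.Agent.Helper46.ME.Base
import Pool.Agent.Helper46.ME.St.A2
import Pool.Agent.Helper46.ME.St.B5
import Pool.Agent.Helper46.ME.St.D4
import Pool.Agent.Helper46.ME.St.E2
import Pool.Agent.Helper46.ME.Dat.Cyc
import Pool.Agent.Helper46.ME.Dat.H4
import Pool.Agent.Helper46.ME.Dat.H5
import Pool.Agent.Helper46.ME.Dat.H6
import Pool.Agent.Helper46.ME.Dat.H7
import Pool.Agent.Helper46.ME.Dat.H8
import Pool.Agent.Helper46.ME.Dat.H9
import Pool.Agent.Helper46.ME.Dat.H10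
import Pool.Agent.Helper46.ME.Dat.H11
import Pool.Agent.Helper46.ME.Dat.H12
import Pool.Agent.Helper46.ME.Dat.H13
import Pool.Agent.Helper46.ME.Dat.H14

/-! Assembly. -/

namespace Pool.Agent.Helper46.ME

theorem exists_ht (f : Fin 15) (hf : f ≠ 0) : ∃ h, Ht FB 0 f h := by
  have key : ∀ n : ℕ, n < 15 → n ≠ 0 → ∃ tab k inv, chk tab k n = true ∧
      chkI tab k n inv = true := by
    intro n hn h0
    interval_cases n
    · exact absurd rfl h0
    · exact ⟨_, _, _, chk1, chkI1⟩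
    · exact ⟨_, _, _, chk2, chkI2⟩
    · exact ⟨_, _, _, chk3, chkI3⟩
    · exact ⟨_, _, _, chk4, chkI4⟩
    · exact ⟨_, _, _, chk5, chkI5⟩
    · exact ⟨_, _, _, chk6, chkI6⟩
    · exact ⟨_, _, _, chk7, chkI7⟩
    · exact ⟨_, _, _, chk8, chkI8⟩
    · exact ⟨_, _, _, chk9, chkI9⟩
    · exact ⟨_, _, _, chk10, chkI10⟩
    · exact ⟨_, _, _, chk11, chkI11⟩
    · exact ⟨_, _, _, chk12, chkI12⟩
    · exact ⟨_, _, _, chk13, chkI13⟩
    · exact ⟨_, _, _, chk14, chkI14⟩
  obtain ⟨tab, k, inv, h1, h2⟩ := key f f.2 (fun h => hf (Fin.ext h))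
  exact ⟨_, ht_of_chk h1 h2 hf⟩

/-- the chirotope on fourteen elements -/
def FO (a b c d : Fin 14) : SignType := FB a.succ b.succ c.succ d.succ

theorem FO_uc : UC FO := FB_uc.comp Fin.succ (Fin.succ_injective 14)

theorem up_of_upb {g f u v c d : ℕ} (hg : g < 14) (hf : f < 14) (hu : u < 14) (hv : v < 14)
    (h : upb g f u v c d = true) : ∃ (hc : c < 14) (hd : d < 14),
      Up FO ⟨g, hg⟩ ⟨f, hf⟩ ⟨u, hu⟩ ⟨v, hv⟩ ⟨c, hc⟩ ⟨d, hd⟩ := by
  have nf : ∀ {p q : ℕ}, (!(Nat.beq p q)) = true → p ≠ q := by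
    intro p q h1 h2
    subst h2
    rw [Nat.beq_refl] at h1
    exact absurd h1 (by decide)
  unfold upb at h
  simp only [Bool.and_eq_true] at h
  obtain ⟨⟨⟨⟨⟨⟨⟨⟨⟨⟨⟨⟨⟨⟨⟨h1, h2⟩, h3⟩, h4⟩, h5⟩, h6⟩, h7⟩, h8⟩, h9⟩, h10⟩, h11⟩, h12⟩, h13⟩, h14⟩, h15⟩,
    h16⟩ := h
  refine ⟨blt_iff.1 h1, blt_iff.1 h2, ?_⟩
  unfold Up FO FB
  simp only [Fin.val_succ]
  have e3 := nf h3
  have e4 := nf h4
  have e5 := nf h5
  have e6 := nf h6
  have e7 := nf h7
  have e8 := nf h8
  have e9 := nf h9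
  have e10 := nf h10
  have e11 := nf h11
  have e12 := nf h12
  have e13 := nf h13
  have e14 := nf h14
  have e15 := nf h15
  rw [sg_of_ne (a := u + 1) (b := v + 1) (c := d + 1) (d := c + 1) (by omega) (by omega)
      (by omega) (by omega) (by omega) (by omega),
    sg_of_ne (a := u + 1) (b := v + 1) (c := f + 1) (d := g + 1) (by omega) (by omega)
      (by omega) (by omega) (by omega) (by omega),
    sg_of_ne (a := u + 1) (b := v + 1) (c := d + 1) (d := g + 1) (by omega) (by omega)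
      (by omega) (by omega) (by omega) (by omega),
    sg_of_ne (a := u + 1) (b := v + 1) (c := c + 1) (d := g + 1) (by omega) (by omega)
      (by omega) (by omega) (by omega) (by omega), mul_assoc, ← sb_xor, ← sb_xor, ← sb_xor]
  revert h16
  generalize nb (u + 1) (v + 1) (d + 1) (c + 1) = p1
  generalize nb (u + 1) (v + 1) (f + 1) (g + 1) = p2
  generalize nb (u + 1) (v + 1) (d + 1) (g + 1) = p3
  generalize nb (u + 1) (v + 1) (c + 1) (g + 1) = p4
  revert p1 p2 p3 p4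
  decide

theorem run_spec {g f p q r : ℕ} (hg : g < 14) (hf : f < 14) (hp : p < 14) (hq : q < 14)
    (hr : r < 14) : ∀ (l : List (ℕ × ℕ)) (a b c : ℕ) (ha : a < 14) (hb : b < 14) (hc : c < 14),
      run g f p q r a b c l = true → ∃ t : Fin 14 × Fin 14 × Fin 14,
        Relation.ReflTransGen (Step FO ⟨g, hg⟩ ⟨f, hf⟩) (⟨a, ha⟩, ⟨b, hb⟩, ⟨c, hc⟩) t ∧
        Same (⟨p, hp⟩, ⟨q, hq⟩, ⟨r, hr⟩) t := by
  intro l
  induction l with
  | nil =>
    intro a b c ha hb hc h
    refine ⟨_, Relation.ReflTransGen.refl, ?_⟩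
    simp only [run, Bool.or_eq_true, Bool.and_eq_true] at h
    unfold Same
    rcases h with ((((h | h) | h) | h) | h) | h <;>
    · obtain ⟨⟨h1, h2⟩, h3⟩ := h
      have e1 := Nat.eq_of_beq_eq_true h1
      have e2 := Nat.eq_of_beq_eq_true h2
      have e3 := Nat.eq_of_beq_eq_true h3
      subst e1; subst e2; subst e3
      simp
  | cons s l ih =>
    intro a b c ha hb hc h
    obtain ⟨k, w⟩ := s
    match k with
    | 0 =>
      simp only [run, Bool.and_eq_true] at h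
      obtain ⟨h1, h2⟩ := h
      obtain ⟨_, hw, hup⟩ := up_of_upb hg hf hb hc h1
      obtain ⟨t, ht, hs⟩ := ih w b c hw hb hc h2
      exact ⟨t, Relation.ReflTransGen.head (Or.inl ⟨⟨w, hw⟩, rfl, hup⟩) ht, hs⟩
    | 1 =>
      simp only [run, Bool.and_eq_true] at h
      obtain ⟨h1, h2⟩ := h
      obtain ⟨_, hw, hup⟩ := up_of_upb hg hf ha hc h1
      obtain ⟨t, ht, hs⟩ := ih a w c ha hw hc h2
      exact ⟨t, Relation.ReflTransGen.head (Or.inr (Or.inl ⟨⟨w, hw⟩, rfl, hup⟩)) ht, hs⟩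
    | k + 2 =>
      simp only [run, Bool.and_eq_true] at h
      obtain ⟨h1, h2⟩ := h
      obtain ⟨_, hw, hup⟩ := up_of_upb hg hf ha hb h1
      obtain ⟨t, ht, hs⟩ := ih a b w ha hb hw h2
      exact ⟨t, Relation.ReflTransGen.head (Or.inr (Or.inr ⟨⟨w, hw⟩, rfl, hup⟩)) ht, hs⟩

theorem exists_cycle (g f : Fin 14) (hgf : g ≠ f) :
    ∃ t0 t1 t2, Step FO g f t0 t1 ∧ Relation.ReflTransGen (Step FO g f) t1 t2 ∧
      Same t0 t2 := by
  have h1 := allr_spec chkC_true g (Nat.zero_le _) (by omega)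
  have h2 := allr_spec h1 f (Nat.zero_le _) (by omega)
  rw [beq_false (Fin.val_ne_of_ne hgf), Bool.false_or] at h2
  revert h2
  generalize cyc.getD (14 * (g : ℕ) + f) (0, 0, 0, []) = e
  obtain ⟨a, b, c, l⟩ := e
  intro h2
  simp only [okc, Bool.and_eq_true] at h2
  obtain ⟨⟨⟨⟨ha, hb⟩, hc⟩, hl⟩, hrun⟩ := h2
  have ha' := blt_iff.1 ha
  have hb' := blt_iff.1 hb
  have hc' := blt_iff.1 hc
  cases l with
  | nil => exact absurd hl (by decide)
  | cons s l =>
    obtain ⟨k, w⟩ := s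
    match k with
    | 0 =>
      simp only [run, Bool.and_eq_true] at hrun
      obtain ⟨h1, h2⟩ := hrun
      obtain ⟨_, hw, hup⟩ := up_of_upb g.2 f.2 hb' hc' h1
      obtain ⟨t, ht, hs⟩ := run_spec g.2 f.2 ha' hb' hc' l w b c hw hb' hc' h2
      exact ⟨_, _, t, Or.inl ⟨⟨w, hw⟩, rfl, hup⟩, ht, hs⟩
    | 1 =>
      simp only [run, Bool.and_eq_true] at hrun
      obtain ⟨h1, h2⟩ := hrun
      obtain ⟨_, hw, hup⟩ := up_of_upb g.2 f.2 ha' hc' h1
      obtain ⟨t, ht, hs⟩ := run_spec g.2 f.2 ha' hb' hc' l a w c ha' hw hc' h2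
      exact ⟨_, _, t, Or.inr (Or.inl ⟨⟨w, hw⟩, rfl, hup⟩), ht, hs⟩
    | k + 2 =>
      simp only [run, Bool.and_eq_true] at hrun
      obtain ⟨h1, h2⟩ := hrun
      obtain ⟨_, hw, hup⟩ := up_of_upb g.2 f.2 ha' hb' h1
      obtain ⟨t, ht, hs⟩ := run_spec g.2 f.2 ha' hb' hc' l a b w ha' hb' hw h2
      exact ⟨_, _, t, Or.inr (Or.inr ⟨⟨w, hw⟩, rfl, hup⟩), ht, hs⟩

/-- numbering of the extended ground set -/
def cd (o : Option (Fin 14)) : Fin 15 := o.elim 0 Fin.succ

theorem cd_inj : Function.Injective cd := by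
  intro a b h
  cases a with
  | none =>
    cases b with
    | none => rfl
    | some b => exact absurd h.symm (Fin.succ_ne_zero b)
  | some a =>
    cases b with
    | none => exact absurd h (Fin.succ_ne_zero a)
    | some b => exact congrArg some (Fin.succ_injective 14 h)

/-- There is an oriented matroid of rank four on fourteen elements which is uniform, all pairs of
elements are programs, it is Mandel and totally non-Euclidean. -/
theorem main : ∃ O : OM 4 (Fin 14), (∀ x : Fin 4 → Fin 14, Function.Injective x → O.chi x ≠ 0) ∧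
    (∀ g f, g ≠ f → O.IsProgram g f) ∧ O.Mandel ∧ O.TotallyNonEuclidean := by
  obtain ⟨O, hO⟩ := FO_uc.exists_om (fun i : Fin 4 => (Fin.castLE (by omega) i : Fin 14))
    (Fin.castLE_injective (by omega))
  obtain ⟨G, hG⟩ := (FB_uc.comp cd cd_inj).exists_om
    (fun i : Fin 4 => some (Fin.castLE (by omega) i : Fin 14))
    (fun a b h => Fin.castLE_injective (by omega) (Option.some.inj h))
  have hGU := FB_uc.comp cd cd_inj
  have hprog : ∀ g f : Fin 14, g ≠ f → O.IsProgram g f := by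
    intro g f hgf
    refine ⟨hgf, ?_, ?_⟩
    · have : ∃ a b c : Fin 14, a ≠ b ∧ a ≠ c ∧ a ≠ g ∧ b ≠ c ∧ b ≠ g ∧ c ≠ g := by
        revert g f; decide
      obtain ⟨a, b, c, h1, h2, h3, h4, h5, h6⟩ := this
      exact hO.not_isLoop (FO_uc.uni a b c g h1 h2 h3 h4 h5 h6)
    · have : ∃ a b c d : Fin 14, a ≠ b ∧ a ≠ c ∧ a ≠ d ∧ b ≠ c ∧ b ≠ d ∧ c ≠ d ∧ f ≠ a ∧
          f ≠ b ∧ f ≠ c ∧ f ≠ d := by
        have key : ∀ f : Fin 14, ∃ a b c d : Fin 14, (a, b, c, d) ∈
          [((0 : Fin 14), (1 : Fin 14), (2 : Fin 14), (3 : Fin 14)), (4, 5, 6, 7)] ∧ f ≠ a ∧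
          f ≠ b ∧ f ≠ c ∧ f ≠ d := by
          intro f
          by_cases hf : f.val < 4
          · refine ⟨4, 5, 6, 7, by simp, ?_, ?_, ?_, ?_⟩ <;> (intro h; subst h; revert hf; decide)
          · refine ⟨0, 1, 2, 3, by simp, ?_, ?_, ?_, ?_⟩ <;> (intro h; subst h; revert hf; decide)
        obtain ⟨a, b, c, d, hm, h1, h2, h3, h4⟩ := key f
        refine ⟨a, b, c, d, ?_⟩
        simp only [List.mem_cons, Prod.mk.injEq, List.not_mem_nil, or_false] at hm
        rcases hm with ⟨rfl, rfl, rfl, rfl⟩ | ⟨rfl, rfl, rfl, rfl⟩ <;>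
          exact ⟨by decide, by decide, by decide, by decide, by decide, by decide, h1, h2, h3, h4⟩
      obtain ⟨a, b, c, d, h1, h2, h3, h4, h5, h6, h7, h8, h9, h10⟩ := this
      exact hO.not_isColoop (FO_uc.uni a b c d h1 h2 h3 h4 h5 h6) h7 h8 h9 h10
  refine ⟨O, ?_, hprog, ⟨G, ?_, hG.generalPosition hGU, ?_, ?_⟩, ?_⟩
  · intro x hx
    rw [hO x]
    exact FO_uc.uni _ _ _ _ (hx.ne (by decide)) (hx.ne (by decide)) (hx.ne (by decide))
      (hx.ne (by decide)) (hx.ne (by decide)) (hx.ne (by decide))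
  · intro x
    rw [hG, hO]
    rfl
  · exact hG.not_isColoop (a := some 0) (b := some 1) (c := some 2) (d := some 3)
      (hGU.uni _ _ _ _ (by simp) (by simp) (by decide) (by decide) (by decide) (by decide))
      (by simp) (by simp) (by simp) (by simp)
  · intro f _ _
    obtain ⟨h, hh⟩ := exists_ht f.succ (Fin.succ_ne_zero f)
    have hH := hh.comp cd cd_inj (g' := none) (f' := some f) rfl rfl
    refine ⟨⟨by simp, ?_, ?_⟩, euclidean_of_ht hG hGU (by simp) hH⟩
    · exact hG.not_isLoop (a := some 0) (b := some 1) (c := some 2)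
        (hGU.uni _ _ _ _ (by simp) (by decide) (by simp) (by decide) (by simp) (by simp))
    · have key : ∀ f : Fin 14, ∃ a b c d : Fin 14, (a, b, c, d) ∈
          [((0 : Fin 14), (1 : Fin 14), (2 : Fin 14), (3 : Fin 14)), (4, 5, 6, 7)] ∧ f ≠ a ∧
          f ≠ b ∧ f ≠ c ∧ f ≠ d := by
        intro f
        by_cases hf : f.val < 4
        · refine ⟨4, 5, 6, 7, by simp, ?_, ?_, ?_, ?_⟩ <;> (intro h; subst h; revert hf; decide)
        · refine ⟨0, 1, 2, 3, by simp, ?_, ?_, ?_, ?_⟩ <;> (intro h; subst h; revert hf; decide)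
      obtain ⟨a, b, c, d, hm, h1, h2, h3, h4⟩ := key f
      simp only [List.mem_cons, Prod.mk.injEq, List.not_mem_nil, or_false] at hm
      rcases hm with ⟨rfl, rfl, rfl, rfl⟩ | ⟨rfl, rfl, rfl, rfl⟩
      · exact hG.not_isColoop (a := some 0) (b := some 1) (c := some 2) (d := some 3)
          (hGU.uni _ _ _ _ (by decide) (by decide) (by decide) (by decide) (by decide) (by decide))
          (by simpa using h1) (by simpa using h2) (by simpa using h3) (by simpa using h4)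
      · exact hG.not_isColoop (a := some 4) (b := some 5) (c := some 6) (d := some 7)
          (hGU.uni _ _ _ _ (by decide) (by decide) (by decide) (by decide) (by decide) (by decide))
          (by simpa using h1) (by simpa using h2) (by simpa using h3) (by simpa using h4)
  · intro g f hp
    obtain ⟨t0, t1, t2, h1, h2, h3⟩ := exists_cycle g f hp.1
    exact not_euclidean_of_cycle hO FO_uc hp.1 t0 t1 t2 h1 h2 h3

end Pool.Agent.Helper46.ME
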